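import Pool.Agent.H.MP_eba1ef_gt.B

set_option autoImplicit false
open Pointwise

namespace Pool.Agent.Results.MP_eba1ef_gt.GenPerm

theorem result (d n : ℕ) (f : Finset (Fin n) → ℝ) (h0 : f ∅ = 0)
    (hsub : ∀ S T, f (S ∪ T) + f (S ∩ T) ≤ f S + f T)
    (A L : Set (EuclideanSpace ℝ (Fin d)))
    (φ : EuclideanSpace ℝ (Fin d) →ᵃ[ℝ] (Fin n → ℝ)) (hφ : Function.Injective φ)
    (hA : φ '' A = {y | ∑ i, y i = f Finset.univ ∧ ∀ S : Finset (Fin n), ∑ i ∈ S, y i ≤ f S})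
    (hi : (interior A).Nonempty) :
    ∃ T : Finset (EuclideanSpace ℝ (Fin d)), T.card ≤ 2 ^ d ∧
      A + L ⊆ ⋃ t ∈ T, (fun x => t + x) '' interior (A + L) := by
  obtain ⟨T, h1, h2⟩ := Pool.Agent.H.MP_eba1ef_gt.main ⟨h0, hsub⟩ A φ hφ hA hi
  refine ⟨T, h1, ?_⟩
  rintro _ ⟨a, ha, l, hl, rfl⟩
  obtain ⟨t, ht, e⟩ := h2 a ha
  exact Set.mem_biUnion ht ⟨a - t + l, subset_interior_add_left ⟨_, e, l, hl, rfl⟩, by
    simp only []; abel⟩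

end Pool.Agent.Results.MP_eba1ef_gt.GenPerm
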